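import Mathlib

set_option autoImplicit false

namespace Pool.Agent.Results.MP_024e1e_ag.No

open MvPolynomial SimpleGraph

/- The LSS ideal of G in dimension d over k. -/
noncomputable def LSS (k : Type) [Field k] {V : Type} (G : SimpleGraph V) (d : ℕ) :
    Ideal (MvPolynomial (V × Fin d) k) :=
  Ideal.span {f | ∃ i l, G.Adj i l ∧ f = ∑ j : Fin d, X (i, j) * X (l, j)}

def rel : Fin 5 ⊕ Fin 5 → Fin 5 ⊕ Fin 5 → Bool
  | .inl i, .inr j => (i != j && i != 4 && j != 4) || (i == 4 && j == 4)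
  | .inr j, .inl i => (i != j && i != 4 && j != 4) || (i == 4 && j == 4)
  | _, _ => false

def G0 : SimpleGraph (Fin 5 ⊕ Fin 5) where
  Adj x y := rel x y = true
  symm := ⟨by decide⟩
  loopless := ⟨by decide⟩

instance : DecidableRel G0.Adj := fun x y => inferInstanceAs (Decidable (rel x y = true))

lemma deg : ∀ v, (Finset.univ.filter fun w => G0.Adj v w).card ≤ 3 := by decide +kernel

lemma codeg : ∀ u v, u ≠ v →
    (Finset.univ.filter fun w => G0.Adj u w ∧ G0.Adj v w).card ≤ 2 := by decide +kernel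

lemma noK (a b : ℕ) (ha : 1 ≤ a) (hb : 1 ≤ b) (h : 5 ≤ a + b) :
    ¬ completeBipartiteGraph (Fin a) (Fin b) ⊑ G0 := by
  rintro ⟨f⟩
  have adj : ∀ i j, G0.Adj (f (.inl i)) (f (.inr j)) := fun i j => f.toHom.map_adj (by simp)
  have c1 : ∀ S : Finset (Fin 5 ⊕ Fin 5), (∀ j, f (.inr j) ∈ S) → b ≤ S.card := fun S hS => by
    simpa using Finset.card_le_card_of_injOn (s := Finset.univ) (t := S) (fun j => f (.inr j))
      (fun j _ => hS j) (fun x _ y _ h => Sum.inr_injective (f.injective h))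
  have c2 : ∀ S : Finset (Fin 5 ⊕ Fin 5), (∀ j, f (.inl j) ∈ S) → a ≤ S.card := fun S hS => by
    simpa using Finset.card_le_card_of_injOn (s := Finset.univ) (t := S) (fun j => f (.inl j))
      (fun j _ => hS j) (fun x _ y _ h => Sum.inl_injective (f.injective h))
  have b3 := (c1 _ (fun j => by simpa using adj ⟨0, ha⟩ j)).trans (deg (f (.inl ⟨0, ha⟩)))
  have a3 := (c2 _ (fun j => by simpa using (adj j ⟨0, hb⟩).symm)).trans (deg (f (.inr ⟨0, hb⟩)))
  have b2 := (c1 _ (fun j => by simpa using ⟨adj ⟨0, ha⟩ j, adj ⟨1, by omega⟩ j⟩)).trans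
    (codeg (f (.inl ⟨0, ha⟩)) (f (.inl ⟨1, by omega⟩)) (fun h => by simpa using f.injective h))
  have a2 := (c2 _ (fun j => by
    simpa using ⟨(adj j ⟨0, hb⟩).symm, (adj j ⟨1, by omega⟩).symm⟩)).trans
    (codeg (f (.inr ⟨0, hb⟩)) (f (.inr ⟨1, by omega⟩)) (fun h => by simpa using f.injective h))
  omega

section
variable {R : Type} [CommRing R]

def m2 (u : Fin 5 → Fin 4 → R) (a b : Fin 5) (c e : Fin 4) : R := u a c * u b e - u a e * u b c

def det4 (u : Fin 5 → Fin 4 → R) : R :=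
  m2 u 0 1 0 1 * m2 u 2 3 2 3 - m2 u 0 2 0 1 * m2 u 1 3 2 3 + m2 u 0 3 0 1 * m2 u 1 2 2 3
    + m2 u 1 2 0 1 * m2 u 0 3 2 3 - m2 u 1 3 0 1 * m2 u 0 2 2 3 + m2 u 2 3 0 1 * m2 u 0 1 2 3

def gg (u w : Fin 5 → Fin 4 → R) : R :=
  m2 w 0 1 2 3 * m2 w 2 3 2 3 * m2 u 1 3 0 1 * m2 u 0 2 0 1
    - m2 w 0 2 2 3 * m2 w 1 3 2 3 * m2 u 2 3 0 1 * m2 u 0 1 0 1

def dot (u w : Fin 5 → Fin 4 → R) (i j : Fin 5) : R := ∑ c, u i c * w j c

lemma binet (u w : Fin 5 → Fin 4 → R) (a b : Fin 5) :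
    det4 u * m2 w a b 2 3 = det4 (fun i => ![u i 0, u i 1, dot u w i a, dot u w i b]) := by
  simp only [det4, m2, dot, Fin.sum_univ_four]
  simp
  ring

lemma key (u w : Fin 5 → Fin 4 → R)
    (h : ∀ i j, i ≠ j → i ≠ 4 → j ≠ 4 → dot u w i j = 0) : det4 u * (det4 u * gg u w) = 0 := by
  have e1 := binet u w 0 1
  have e2 := binet u w 2 3
  have e3 := binet u w 0 2
  have e4 := binet u w 1 3
  have h01 := h 0 1 (by decide) (by decide) (by decide)
  have h02 := h 0 2 (by decide) (by decide) (by decide)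
  have h03 := h 0 3 (by decide) (by decide) (by decide)
  have h10 := h 1 0 (by decide) (by decide) (by decide)
  have h12 := h 1 2 (by decide) (by decide) (by decide)
  have h13 := h 1 3 (by decide) (by decide) (by decide)
  have h20 := h 2 0 (by decide) (by decide) (by decide)
  have h21 := h 2 1 (by decide) (by decide) (by decide)
  have h23 := h 2 3 (by decide) (by decide) (by decide)
  have h30 := h 3 0 (by decide) (by decide) (by decide)
  have h31 := h 3 1 (by decide) (by decide) (by decide)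
  have h32 := h 3 2 (by decide) (by decide) (by decide)
  obtain ⟨D, hD⟩ : ∃ D, D = det4 u := ⟨_, rfl⟩
  rw [← hD] at e1 e2 e3 e4 ⊢
  have e : D * (D * gg u w) = (D * m2 w 0 1 2 3) * (D * m2 w 2 3 2 3) * m2 u 1 3 0 1 * m2 u 0 2 0 1
    - (D * m2 w 0 2 2 3) * (D * m2 w 1 3 2 3) * m2 u 2 3 0 1 * m2 u 0 1 0 1 := by
    unfold gg; ring
  rw [e, e1, e2, e3, e4]
  simp [det4, m2, h01, h02, h03, h10, h12, h13, h20, h21, h23, h30, h31, h32]
  ring

end

lemma ev (k : Type) [Field k] (u w : Fin 5 → Fin 4 → k)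
    (h : ∀ i j, rel (.inl i) (.inr j) = true → dot u w i j = 0) :
    ∀ f ∈ LSS k G0 4, eval (fun x => Sum.elim u w x.1 x.2) f = 0 := by
  intro f hf
  have : LSS k G0 4 ≤ RingHom.ker (eval (fun x : (Fin 5 ⊕ Fin 5) × Fin 4 =>
      Sum.elim u w x.1 x.2)) := by
    refine Ideal.span_le.2 ?_
    rintro _ ⟨i, l, hil, rfl⟩
    simp only [SetLike.mem_coe, RingHom.mem_ker, map_sum, map_mul, eval_X]
    rcases i with i | i <;> rcases l with l | l
    · exact absurd hil (by simp [G0, rel])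
    · exact h i l hil
    · simpa [dot, mul_comm] using h l i hil
    · exact absurd hil (by simp [G0, rel])
  exact this hf

theorem result (k : Type) [Field k] :
    ∃ (m n : ℕ) (G : SimpleGraph (Fin m ⊕ Fin n)), m ≤ n ∧
      G ≤ completeBipartiteGraph (Fin m) (Fin n) ∧ (∀ v, ∃ w, G.Adj v w) ∧
      (∀ a b : ℕ, 1 ≤ a → 1 ≤ b → m ≤ a + b → ¬ completeBipartiteGraph (Fin a) (Fin b) ⊑ G) ∧
      ¬ (LSS k G (m - 1)).IsPrime := by
  refine ⟨5, 5, G0, le_rfl, ?_, by decide, noK, ?_⟩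
  · rintro (i | i) (l | l) h
    · exact absurd h (by simp [G0, rel])
    · simp
    · simp
    · exact absurd h (by simp [G0, rel])
  change ¬ (LSS k G0 4).IsPrime
  intro hp
  let u : Fin 5 → Fin 4 → MvPolynomial ((Fin 5 ⊕ Fin 5) × Fin 4) k := fun i c => X (.inl i, c)
  let w : Fin 5 → Fin 4 → MvPolynomial ((Fin 5 ⊕ Fin 5) × Fin 4) k := fun i c => X (.inr i, c)
  let π := Ideal.Quotient.mk (LSS k G0 4)
  have h1 := key (fun i c => π (u i c)) (fun i c => π (w i c)) (fun i j a b c => by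
    have : dot u w i j ∈ LSS k G0 4 := Ideal.subset_span ⟨.inl i, .inr j, by simp [G0, rel, a, b, c], rfl⟩
    simpa [dot] using Ideal.Quotient.eq_zero_iff_mem.2 this)
  have h2 : det4 u * (det4 u * gg u w) ∈ LSS k G0 4 := by
    rw [← Ideal.Quotient.eq_zero_iff_mem, ← h1]
    simp only [det4, gg, m2, map_mul, map_sub, map_add, π]
  have hd : det4 u ∉ LSS k G0 4 := fun h => by
    have := ev k (fun i c => if (i : ℕ) = c then 1 else 0) 0 (fun i j _ => by simp [dot]) _ h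
    simp [det4, m2, u] at this
  have hg : gg u w ∉ LSS k G0 4 := fun h => by
    have := ev k ![![1, 0, 0, 0], ![1, 0, 0, 0], ![0, 1, 0, 0], ![0, 1, 0, 0], 0]
      ![![0, 0, 1, 0], ![0, 0, 0, 1], ![0, 0, 1, 0], ![0, 0, 0, 1], 0] (fun i j _ => by
        fin_cases i <;> fin_cases j <;> simp [dot, Fin.sum_univ_four]) _ h
    simp [gg, m2, u, w] at this
  rcases hp.mem_or_mem h2 with h | h
  · exact hd h
  · exact (hp.mem_or_mem h).elim hd hg

end Pool.Agent.Results.MP_024e1e_ag.No
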